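import Pool.Agent.Helper91.MC9.Spec

set_option autoImplicit false

namespace Pool.Agent.Helper56.MC9.MUL

open SimpleGraph Pool.Agent.Helper91.MC9

theorem main (hESET : S_ESET) (hCOPF : S_COPF) (hSAT : S_SAT) (hNEW : S_NEW) (hUNQ : S_UNQ) :
    S_MUL := by
  intro ℋ hS hC
  obtain ⟨K, hK⟩ := hNEW ℋ hS.1
  refine ⟨K, fun s => ?_⟩
  obtain ⟨N, hN⟩ := hUNQ s
  refine ⟨N, fun n m => ?_⟩
  obtain ⟨V, hV, G, hcard, hmax, hedges⟩ := ((hESET ℋ hS).2 n).2.2.2.1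
  obtain ⟨G', hle, hmax'⟩ := hSAT ℋ (Fin m × V) (copies m G) (hCOPF ℋ hC V m G hmax.1)
  have h1 : Mmin ℋ (m * n) ≤ G'.edgeSet.ncard := by
    refine Nat.sInf_le ⟨Fin m × V, inferInstance, G', ?_, hmax', rfl⟩
    rw [Nat.card_prod, Nat.card_fin, hcard]
  have h2 := hK V G m G' hmax hmax'.1 hle
  have h3 := hN V G
  rw [hedges] at h2
  rw [hcard] at h3
  calc s * Mmin ℋ (m * n) ≤ s * (m * Mmin ℋ n + K * m * uq G) :=
        Nat.mul_le_mul_left _ (h1.trans h2)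
    _ = s * (m * Mmin ℋ n) + K * m * (s * uq G) := by ring
    _ ≤ s * (m * Mmin ℋ n) + K * m * (n + s * N) := by
        gcongr

end Pool.Agent.Helper56.MC9.MUL
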