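import Pool.Agent.Helper91.MC9.Spec

set_option autoImplicit false

namespace Pool.Agent.Helper56.MC9.QUO

open SimpleGraph Pool.Agent.Helper91.MC9

theorem main : S_QUO := by
  intro ℋ V G m G' hfree hle C H hH hmin
  obtain ⟨B, hconn, hdis, hadj⟩ := hmin
  let B' : Fin H.1 → Set (Fin m × V) := fun w => {p | p.1 ∈ B w ∧ G.connectedComponentMk p.2 = C}
  -- same copy
  have same : ∀ w (i : Fin m) (hi : i ∈ B w) (x y : V) (hx : G.connectedComponentMk x = C)
      (hy : G.connectedComponentMk y = C),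
      (G'.induce (B' w)).Reachable ⟨(i, x), hi, hx⟩ ⟨(i, y), hi, hy⟩ := by
    intro w i hi x y hx hy
    have hr : G.Reachable x y := ConnectedComponent.exact (hx.trans hy.symm)
    obtain ⟨p⟩ := hr
    induction p with
    | nil => exact Reachable.refl _
    | @cons u v z h p ih =>
      have hv : G.connectedComponentMk v = C := by
        rw [← hx]; exact (ConnectedComponent.sound h.reachable).symm
      have h1 : (G'.induce (B' w)).Adj ⟨(i, u), hi, hx⟩ ⟨(i, v), hi, hv⟩ := by
        show G'.Adj (i, u) (i, v)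
        exact hle (show (copies m G).Adj (i, u) (i, v) from ⟨rfl, h⟩)
      exact h1.reachable.trans (ih hv hy)
  refine hfree H hH ⟨B', ?_, ?_, ?_⟩
  · intro w
    obtain ⟨hpre, hne⟩ := (connected_iff _).mp (hconn w)
    rw [connected_iff]
    constructor
    · rintro ⟨⟨i, x⟩, hi, hx⟩ ⟨⟨j, y⟩, hj, hy⟩
      obtain ⟨p⟩ := hpre ⟨i, hi⟩ ⟨j, hj⟩
      have key : ∀ (a b : {i // i ∈ B w}) (p : ((quo G C G').induce (B w)).Walk a b),
          ∀ (x y : V) (hx : G.connectedComponentMk x = C) (hy : G.connectedComponentMk y = C),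
          (G'.induce (B' w)).Reachable ⟨(a.1, x), a.2, hx⟩ ⟨(b.1, y), b.2, hy⟩ := by
        intro a b p
        induction p with
        | @nil u => intro x y hx hy; exact same w u.1 u.2 x y hx hy
        | @cons u v z h p ih =>
          intro x y hx hy
          have h' : (quo G C G').Adj u.1 v.1 := h
          obtain ⟨-, x', y', hx', hy', ha⟩ := h'
          have h1 : (G'.induce (B' w)).Adj ⟨(u.1, x'), u.2, hx'⟩ ⟨(v.1, y'), v.2, hy'⟩ := ha
          exact ((same w _ u.2 x x' hx hx').trans h1.reachable).trans (ih y' y hy' hy)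
      exact key ⟨i, hi⟩ ⟨j, hj⟩ p x y hx hy
    · obtain ⟨i, hi⟩ := hne
      obtain ⟨v, hv⟩ := C.exists_rep
      exact ⟨⟨(i, v), hi, hv⟩⟩
  · intro a b hab
    have h0 : Disjoint (B a) (B b) := hdis hab
    show Disjoint (B' a) (B' b)
    rw [Set.disjoint_left] at h0 ⊢
    rintro ⟨i, x⟩ ⟨h1, -⟩ ⟨h2, -⟩
    exact h0 h1 h2
  · intro a b hab
    obtain ⟨i, hi, j, hj, -, x, y, hx, hy, h⟩ := hadj a b hab
    exact ⟨(i, x), ⟨hi, hx⟩, (j, y), ⟨hj, hy⟩, h⟩

end Pool.Agent.Helper56.MC9.QUO
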